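import Mathlib
import Pool.Agent.NIPFields.LV.GPrime

set_option autoImplicit false

/-!
# The number of traces for relations of finite VC dimension
-/

namespace Pool.Agent.NIPFields.PQ

open Finset Pool.Agent.NIPFields.LV

/-- The lemma of Sauer and Shelah. -/
theorem trLe_of_vc {F : Type*} [Field F] {H : Set F} {d : ℕ}
    (h : ∀ y : Fin d → F, ∃ J : Finset (Fin d), ∀ x : F, ∃ i, ¬ (1 + y i * x ∈ H ↔ i ∈ J)) :
    TrLe F H fun m => ∑ k ∈ range d, m.choose k := by
  classical
  intro m b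
  have hfin : {J : Finset (Fin m) | ∃ x : F, ∀ j, (1 + b j * x ∈ H ↔ j ∈ J)}.Finite :=
    Set.toFinite _
  rw [Set.ncard_eq_toFinset_card _ hfin]
  set 𝓐 := hfin.toFinset with h𝓐
  refine (card_le_card_shatterer 𝓐).trans (card_shatterer_le_sum_vcDim.trans ?_)
  rw [Fintype.card_fin]
  refine sum_le_sum_of_subset ?_
  intro k hk
  rw [mem_Iic] at hk
  rw [mem_range]
  refine lt_of_le_of_lt hk ?_
  by_contra hcon
  push Not at hcon
  -- a shattered set with at least `d` elements
  have h1 : ∃ s, 𝓐.Shatters s ∧ d ≤ s.card := by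
    by_contra h2
    push Not at h2
    have h3 : 𝓐.vcDim < d ∨ d = 0 := by
      rcases Nat.eq_zero_or_pos d with h4 | h4
      · exact Or.inr h4
      · left
        unfold Finset.vcDim
        rw [Finset.sup_lt_iff h4]
        intro s hs
        exact h2 s (mem_shatterer.1 hs)
    rcases h3 with h3 | rfl
    · omega
    · obtain ⟨J, hJ⟩ := h Fin.elim0
      obtain ⟨i, _⟩ := hJ 0
      exact i.elim0
  obtain ⟨s, hs, hds⟩ := h1
  obtain ⟨u, hus, hud⟩ := exists_subset_card_eq hds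
  let e : Fin d ≃ u := (Fintype.equivFinOfCardEq (by rw [Fintype.card_coe, hud])).symm
  obtain ⟨J, hJ⟩ := h fun i => b (e i)
  have h2 := hs.mono_right hus
  obtain ⟨t, ht, htu⟩ := h2 (t := J.image fun i => ((e i : u) : Fin m)) (by
    intro x hx
    obtain ⟨i, _, rfl⟩ := mem_image.1 hx
    exact (e i).2)
  rw [h𝓐, Set.Finite.mem_toFinset] at ht
  obtain ⟨x, hx⟩ := ht
  obtain ⟨i, hi⟩ := hJ x
  apply hi
  rw [hx (e i)]
  have h3 : ((e i : u) : Fin m) ∈ t ↔ ((e i : u) : Fin m) ∈ u ∩ t := by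
    rw [mem_inter]
    exact ⟨fun h => ⟨(e i).2, h⟩, fun h => h.2⟩
  rw [h3, htu, mem_image]
  constructor
  · rintro ⟨j, hj, hje⟩
    have : j = i := e.injective (Subtype.ext hje)
    rwa [← this]
  · intro h4
    exact ⟨i, h4, rfl⟩

/-- The binomial sums are small. -/
theorem tendsto_binom (d : ℕ) : Filter.Tendsto
    (fun m : ℕ => ((∑ k ∈ range d, m.choose k : ℕ) : ℝ) / (m : ℝ) ^ d) Filter.atTop (nhds 0) := by
  have h1 : ∀ m : ℕ, 0 < m → ((∑ k ∈ range d, m.choose k : ℕ) : ℝ) / (m : ℝ) ^ d ≤ d / m := by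
    intro m hm
    have hm' : (0 : ℝ) < m := by exact_mod_cast hm
    rcases Nat.eq_zero_or_pos d with rfl | hd
    · simp
    have h2 : ((∑ k ∈ range d, m.choose k : ℕ) : ℝ) ≤ d * (m : ℝ) ^ (d - 1) := by
      push_cast
      refine (sum_le_card_nsmul _ _ ((m : ℝ) ^ (d - 1)) fun k hk => ?_).trans ?_
      · rw [mem_range] at hk
        have h3 : (m.choose k : ℝ) ≤ (m : ℝ) ^ k := by exact_mod_cast Nat.choose_le_pow m k
        refine h3.trans (pow_le_pow_right₀ ?_ (by omega))
        exact_mod_cast hm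
      · rw [card_range, nsmul_eq_mul]
    rw [div_le_div_iff₀ (by positivity) hm']
    calc ((∑ k ∈ range d, m.choose k : ℕ) : ℝ) * m ≤ d * (m : ℝ) ^ (d - 1) * m :=
          mul_le_mul_of_nonneg_right h2 hm'.le
      _ = d * (m : ℝ) ^ d := by
          rw [mul_assoc, ← pow_succ, Nat.sub_add_cancel hd]
  refine squeeze_zero' (Filter.Eventually.of_forall fun m => by positivity) ?_
    (tendsto_const_div_atTop_nhds_zero_nat (d : ℝ))
  filter_upwards [Filter.eventually_gt_atTop 0] with m hm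
  exact h1 m hm

end Pool.Agent.NIPFields.PQ
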