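import Mathlib

set_option autoImplicit false

/-!
# Product weights on functions
-/

namespace Pool.Agent.NIPFields.PQ

open Finset

variable {κ Ω : Type*} [Fintype κ] [DecidableEq κ] [Fintype Ω]

/-- The expectation of `F` for independent random elements with weights `w`. -/
noncomputable def EE (w : Ω → ℝ) (F : (κ → Ω) → ℝ) : ℝ := ∑ x : κ → Ω, (∏ i, w (x i)) * F x

theorem EE_prod (w : Ω → ℝ) (f : κ → Ω → ℝ) :
    EE w (fun x => ∏ i, f i (x i)) = ∏ i, ∑ ω, w ω * f i ω := by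
  classical
  unfold EE
  rw [Finset.prod_univ_sum, Fintype.piFinset_univ]
  refine Finset.sum_congr rfl fun x _ => ?_
  rw [Finset.prod_mul_distrib]

theorem EE_const {w : Ω → ℝ} (hw : ∑ ω, w ω = 1) (c : ℝ) :
    EE w (fun _ : κ → Ω => c) = c := by
  have h := EE_prod w (fun (_ : κ) (_ : Ω) => (1 : ℝ))
  simp only [mul_one, hw, Finset.prod_const_one] at h
  unfold EE at h ⊢
  simp only [mul_one] at h
  rw [← Finset.sum_mul, h, one_mul]

theorem EE_mono {w : Ω → ℝ} (hw : ∀ ω, 0 ≤ w ω) {F F' : (κ → Ω) → ℝ} (h : ∀ x, F x ≤ F' x) :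
    EE w F ≤ EE w F' :=
  Finset.sum_le_sum fun x _ =>
    mul_le_mul_of_nonneg_left (h x) (Finset.prod_nonneg fun i _ => hw (x i))

theorem EE_nonneg {w : Ω → ℝ} (hw : ∀ ω, 0 ≤ w ω) {F : (κ → Ω) → ℝ} (h : ∀ x, 0 ≤ F x) :
    0 ≤ EE w F :=
  Finset.sum_nonneg fun x _ => mul_nonneg (Finset.prod_nonneg fun i _ => hw (x i)) (h x)

theorem EE_sum {ι : Type*} (w : Ω → ℝ) (s : Finset ι) (F : ι → (κ → Ω) → ℝ) :
    EE w (fun x => ∑ i ∈ s, F i x) = ∑ i ∈ s, EE w (F i) := by
  unfold EE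
  rw [Finset.sum_comm]
  refine Finset.sum_congr rfl fun x _ => ?_
  rw [Finset.mul_sum]

theorem EE_sub (w : Ω → ℝ) (F F' : (κ → Ω) → ℝ) :
    EE w (fun x => F x - F' x) = EE w F - EE w F' := by
  unfold EE
  rw [← Finset.sum_sub_distrib]
  refine Finset.sum_congr rfl fun x _ => ?_
  rw [mul_sub]

theorem EE_mul_const (w : Ω → ℝ) (F : (κ → Ω) → ℝ) (c : ℝ) :
    EE w (fun x => F x * c) = EE w F * c := by
  unfold EE
  rw [Finset.sum_mul]
  refine Finset.sum_congr rfl fun x _ => ?_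
  rw [mul_assoc]

/-- Some value is at least the expectation. -/
theorem exists_ge_EE {w : Ω → ℝ} (hw : ∀ ω, 0 ≤ w ω) (hw1 : ∑ ω, w ω = 1) (F : (κ → Ω) → ℝ) :
    ∃ x, EE w F ≤ F x := by
  by_contra hcon
  push Not at hcon
  have h1 : EE w F ≤ EE w (fun _ : κ → Ω => EE w F) := EE_mono hw fun x => (hcon x).le
  rw [EE_const hw1] at h1
  have h2 : EE w (fun x => EE w F - F x) = 0 := by
    rw [EE_sub, EE_const hw1, sub_self]
  have h3 : ∀ x : κ → Ω, (∏ i, w (x i)) * (EE w F - F x) = 0 := by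
    have h4 := (Finset.sum_eq_zero_iff_of_nonneg (fun x _ => mul_nonneg
      (Finset.prod_nonneg fun i _ => hw (x i)) (sub_nonneg.2 (hcon x).le))).1 h2
    exact fun x => h4 x (Finset.mem_univ x)
  have h5 : ∀ x : κ → Ω, (∏ i, w (x i)) = 0 := fun x =>
    (mul_eq_zero.1 (h3 x)).resolve_right (sub_ne_zero.2 (hcon x).ne')
  have h6 : EE w (fun _ : κ → Ω => (1 : ℝ)) = 0 := by
    unfold EE
    refine Finset.sum_eq_zero fun x _ => ?_
    rw [h5 x, zero_mul]
  rw [EE_const hw1] at h6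
  exact one_ne_zero h6

/-- Resampling one coordinate. -/
theorem EE_resample {w : Ω → ℝ} (hw1 : ∑ ω, w ω = 1) (j : κ) (F : (κ → Ω) → ℝ) :
    EE w F = EE w (fun x => ∑ c, w c * F (Function.update x j c)) := by
  classical
  unfold EE
  rw [← (Equiv.funSplitAt j Ω).symm.sum_comp, ← (Equiv.funSplitAt j Ω).symm.sum_comp,
    Fintype.sum_prod_type, Fintype.sum_prod_type]
  have hprod : ∀ (a : Ω) (y : {i // i ≠ j} → Ω),
      ∏ i, w ((Equiv.funSplitAt j Ω).symm (a, y) i) = w a * ∏ i, w (y i) := by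
    intro a y
    rw [← Finset.mul_prod_erase _ _ (Finset.mem_univ j)]
    congr 1
    · simp [Equiv.funSplitAt, Equiv.piSplitAt]
    · rw [Finset.prod_subtype (Finset.univ.erase j) (p := fun i => i ≠ j) (by
        intro i
        simp)]
      refine Finset.prod_congr rfl fun i _ => ?_
      simp [Equiv.funSplitAt, Equiv.piSplitAt, i.2]
  have hupd : ∀ (a c : Ω) (y : {i // i ≠ j} → Ω),
      Function.update ((Equiv.funSplitAt j Ω).symm (a, y)) j c =
        (Equiv.funSplitAt j Ω).symm (c, y) := by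
    intro a c y
    funext i
    by_cases hi : i = j
    · subst hi
      simp [Equiv.funSplitAt, Equiv.piSplitAt]
    · simp [Equiv.funSplitAt, Equiv.piSplitAt, hi]
  simp only [hprod, hupd]
  -- both sides
  have h1 : ∀ a : Ω, ∑ y : {i // i ≠ j} → Ω, w a * (∏ i, w (y i)) *
      ∑ c, w c * F ((Equiv.funSplitAt j Ω).symm (c, y)) =
      w a * ∑ y : {i // i ≠ j} → Ω, (∏ i, w (y i)) *
      ∑ c, w c * F ((Equiv.funSplitAt j Ω).symm (c, y)) := by
    intro a
    rw [Finset.mul_sum]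
    refine Finset.sum_congr rfl fun y _ => ?_
    rw [mul_assoc]
  simp only [h1]
  rw [← Finset.sum_mul, hw1, one_mul, Finset.sum_comm]
  refine Finset.sum_congr rfl fun y _ => ?_
  rw [Finset.mul_sum]
  refine Finset.sum_congr rfl fun c _ => ?_
  ring

end Pool.Agent.NIPFields.PQ
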