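import Mathlib
import Pool.Agent.NIPFields.PQ.Weights

set_option autoImplicit false

/-!
# Epsilon nets by double sampling
-/

namespace Pool.Agent.NIPFields.PQ

open Finset

section

variable {κ Ω : Type*} [Fintype κ] [DecidableEq κ] [Fintype Ω]

theorem EE_perm (w : Ω → ℝ) (π : Equiv.Perm κ) (F : (κ → Ω) → ℝ) :
    EE w (fun x => F (x ∘ π)) = EE w F := by
  unfold EE
  have h := (Equiv.arrowCongr π (Equiv.refl Ω)).sum_comp
    (fun x : κ → Ω => (∏ i, w (x i)) * F (x ∘ π))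
  rw [← h]
  refine Finset.sum_congr rfl fun x _ => ?_
  have e1 : (Equiv.arrowCongr π (Equiv.refl Ω)) x ∘ π = x := by
    funext i
    simp [Equiv.arrowCongr]
  rw [e1]
  congr 1
  rw [← Equiv.prod_comp π fun i => w ((Equiv.arrowCongr π (Equiv.refl Ω)) x i)]
  refine Finset.prod_congr rfl fun i _ => ?_
  exact congrArg w (congrFun e1 i)

theorem EE_double (w : Ω → ℝ) (F : (κ ⊕ κ → Ω) → ℝ) :
    EE w F = EE w (fun x : κ → Ω => EE w fun y : κ → Ω => F (Sum.elim x y)) := by
  unfold EE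
  rw [← (Equiv.sumArrowEquivProdArrow κ κ Ω).symm.sum_comp, Fintype.sum_prod_type]
  refine Finset.sum_congr rfl fun x _ => ?_
  rw [Finset.mul_sum]
  refine Finset.sum_congr rfl fun y _ => ?_
  have e1 : (Equiv.sumArrowEquivProdArrow κ κ Ω).symm (x, y) = Sum.elim x y := rfl
  rw [e1, Fintype.prod_sum_type]
  simp only [Sum.elim_inl, Sum.elim_inr]
  rw [mul_assoc]

theorem EE_finsum {ι : Type*} (w : Ω → ℝ) (s : Finset ι) (F : ι → (κ → Ω) → ℝ) :
    EE w (fun x => ∑ i ∈ s, F i x) = ∑ i ∈ s, EE w (F i) := EE_sum w s F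

end

/-- The swap of the blocks given by `σ`. -/
def swp {r t : ℕ} (σ : Fin r → Bool) :
    Equiv.Perm ((Fin r × Fin t) ⊕ (Fin r × Fin t)) :=
  Function.Involutive.toPerm
    (fun u => match u with
      | Sum.inl p => if σ p.1 then Sum.inr p else Sum.inl p
      | Sum.inr p => if σ p.1 then Sum.inl p else Sum.inr p) (by
    intro u
    rcases u with p | p <;> by_cases h : σ p.1 <;> simp [h])

theorem swp_inl {r t : ℕ} (σ : Fin r → Bool) (p : Fin r × Fin t) :
    swp σ (Sum.inl p) = if σ p.1 then Sum.inr p else Sum.inl p := rfl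

theorem swp_inr {r t : ℕ} (σ : Fin r → Bool) (p : Fin r × Fin t) :
    swp σ (Sum.inr p) = if σ p.1 then Sum.inl p else Sum.inr p := rfl

open Classical in
/-- A block of the sample misses a large set with small probability. -/
theorem EE_miss {Ω : Type*} [Fintype Ω] {w : Ω → ℝ} (hw : ∀ ω, 0 ≤ w ω) (hw1 : ∑ ω, w ω = 1)
    {β : ℝ} (A : Ω → Prop) (hA : β ≤ ∑ ω, w ω * (if A ω then 1 else 0)) {r t : ℕ} (j : Fin r) :
    EE w (fun y : Fin r × Fin t → Ω => if ∀ i, ¬ A (y (j, i)) then (1 : ℝ) else 0) ≤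
      (1 - β) ^ t := by
  have e1 : ∀ y : Fin r × Fin t → Ω, (if ∀ i, ¬ A (y (j, i)) then (1 : ℝ) else 0) =
      ∏ p : Fin r × Fin t, (if p.1 = j then (if A (y p) then (0 : ℝ) else 1) else 1) := by
    intro y
    rw [Fintype.prod_prod_type]
    rw [Finset.prod_eq_single j (fun b _ hb => by simp [hb])
      (fun h => absurd (Finset.mem_univ j) h)]
    simp only [if_true]
    by_cases h : ∀ i, ¬ A (y (j, i))
    · rw [if_pos h, Finset.prod_eq_one]
      intro i _
      rw [if_neg (h i)]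
    · rw [if_neg h]
      push Not at h
      obtain ⟨i, hi⟩ := h
      rw [Finset.prod_eq_zero (Finset.mem_univ i)]
      rw [if_pos hi]
  simp only [e1]
  rw [EE_prod w (fun (p : Fin r × Fin t) (ω : Ω) =>
    (if p.1 = j then (if A ω then (0 : ℝ) else 1) else 1)), Fintype.prod_prod_type]
  rw [Finset.prod_eq_single j (fun b _ hb => by simp [hb, hw1])
      (fun h => absurd (Finset.mem_univ j) h)]
  simp only [if_true, Finset.prod_const, Finset.card_univ, Fintype.card_fin]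
  have e2 : ∑ ω, w ω * (if A ω then (0 : ℝ) else 1) =
      1 - ∑ ω, w ω * (if A ω then 1 else 0) := by
    have e0 : (1 : ℝ) = ∑ ω, w ω := hw1.symm
    conv_rhs => lhs; rw [e0]
    rw [← Finset.sum_sub_distrib]
    refine Finset.sum_congr rfl fun ω _ => ?_
    split_ifs <;> ring
  rw [e2]
  have e3 : 0 ≤ 1 - ∑ ω, w ω * (if A ω then (1 : ℝ) else 0) := by
    rw [← e2]
    refine Finset.sum_nonneg fun ω _ => mul_nonneg (hw ω) ?_
    split_ifs <;> norm_num
  exact pow_le_pow_left₀ e3 (by linarith) t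

open Classical in
/-- Epsilon nets. -/
theorem eps_net {Ω B : Type*} [Fintype Ω] (R : Ω → B → Prop) {w : Ω → ℝ} (hw : ∀ ω, 0 ≤ w ω)
    (hw1 : ∑ ω, w ω = 1) {β : ℝ} (hβ : ∀ b, β ≤ ∑ ω, w ω * (if R ω b then 1 else 0)) (r t : ℕ)
    (h1 : r * (1 - β) ^ t ≤ 1 / 2)
    (h2 : ∀ z : (Fin r × Fin t) ⊕ (Fin r × Fin t) → Ω,
      2 * {J : Set ((Fin r × Fin t) ⊕ (Fin r × Fin t)) | ∃ b, J = {i | R (z i) b}}.ncard < 2 ^ r) :
    ∃ z : Fin r × Fin t → Ω, ∀ b, ∃ i, R (z i) b := by
  by_contra hcon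
  push Not at hcon
  choose b hb using hcon
  let E : ((Fin r × Fin t) ⊕ (Fin r × Fin t) → Ω) → ℝ := fun z =>
    if ∀ j, ∃ i, R (z (Sum.inr (j, i))) (b fun p => z (Sum.inl p)) then 1 else 0
  have hE : 1 / 2 ≤ EE w E := by
    rw [EE_double, ← EE_const (κ := Fin r × Fin t) hw1 (1 / 2)]
    refine EE_mono hw fun x => ?_
    have e1 : ∀ y : Fin r × Fin t → Ω, 1 - ∑ j : Fin r,
        (if ∀ i, ¬ R (y (j, i)) (b x) then (1 : ℝ) else 0) ≤ E (Sum.elim x y) := by
      intro y
      have e0 : ∀ j : Fin r, 0 ≤ (if ∀ i, ¬ R (y (j, i)) (b x) then (1 : ℝ) else 0) := by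
        intro j
        split_ifs <;> norm_num
      by_cases h : ∀ j, ∃ i, R (y (j, i)) (b x)
      · have e2 : E (Sum.elim x y) = 1 := if_pos h
        rw [e2]
        have := Finset.sum_nonneg fun j (_ : j ∈ (Finset.univ : Finset (Fin r))) => e0 j
        linarith
      · have e2 : E (Sum.elim x y) = 0 := if_neg h
        rw [e2]
        push Not at h
        obtain ⟨j, hj⟩ := h
        have e3 := Finset.single_le_sum (fun j _ => e0 j) (Finset.mem_univ j)
        rw [if_pos hj] at e3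
        linarith
    have e2 := EE_mono hw e1
    rw [EE_sub, EE_const hw1, EE_sum] at e2
    have e3 : ∑ j : Fin r, EE w (fun y : Fin r × Fin t → Ω =>
        if ∀ i, ¬ R (y (j, i)) (b x) then (1 : ℝ) else 0) ≤ r * (1 - β) ^ t := by
      have := Finset.sum_le_card_nsmul (Finset.univ : Finset (Fin r))
        (fun j => EE w (fun y : Fin r × Fin t → Ω =>
        if ∀ i, ¬ R (y (j, i)) (b x) then (1 : ℝ) else 0)) ((1 - β) ^ t)
        (fun j _ => EE_miss hw hw1 (fun ω => R ω (b x)) (hβ (b x)) j)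
      rwa [Finset.card_univ, Fintype.card_fin, nsmul_eq_mul] at this
    linarith
  -- symmetrization
  have hsym : (2 : ℝ) ^ r * EE w E = EE w (fun z => ∑ σ : Fin r → Bool, E (z ∘ swp σ)) := by
    rw [EE_sum]
    have e1 : ∀ σ ∈ (Finset.univ : Finset (Fin r → Bool)),
        EE w (fun z => E (z ∘ swp (t := t) σ)) = EE w E := fun σ _ => EE_perm w (swp σ) E
    rw [Finset.sum_congr rfl e1, Finset.sum_const, Finset.card_univ]
    simp
  have hbound : ∀ z : (Fin r × Fin t) ⊕ (Fin r × Fin t) → Ω,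
      2 * (∑ σ : Fin r → Bool, E (z ∘ swp σ)) ≤ 2 ^ r - 1 := by
    intro z
    have e1 : ∑ σ : Fin r → Bool, E (z ∘ swp σ) = ((Finset.univ.filter fun σ : Fin r → Bool =>
        ∀ j, ∃ i, R (z (swp σ (Sum.inr (j, i)))) (b fun p => z (swp σ (Sum.inl p)))).card : ℝ) := by
      rw [← Finset.sum_boole]
      rfl
    have e2 : (Finset.univ.filter fun σ : Fin r → Bool =>
        ∀ j, ∃ i, R (z (swp σ (Sum.inr (j, i)))) (b fun p => z (swp σ (Sum.inl p)))).card ≤
        {J : Set ((Fin r × Fin t) ⊕ (Fin r × Fin t)) | ∃ b, J = {i | R (z i) b}}.ncard := by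
      rw [← Set.ncard_coe_finset]
      refine Set.ncard_le_ncard_of_injOn
        (fun σ => {i | R (z i) (b fun p => z (swp σ (Sum.inl p)))}) (fun σ _ => ⟨_, rfl⟩) ?_
        (Set.toFinite _)
      -- the trace determines the swap
      have key : ∀ σ : Fin r → Bool,
          (∀ j, ∃ i, R (z (swp σ (Sum.inr (j, i)))) (b fun p => z (swp σ (Sum.inl p)))) →
          ∀ j, σ j = true ↔ ∃ i, (Sum.inl (j, i) : (Fin r × Fin t) ⊕ (Fin r × Fin t)) ∈
            {i | R (z i) (b fun p => z (swp σ (Sum.inl p)))} := by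
        intro σ hσ j
        constructor
        · intro hj
          obtain ⟨i, hi⟩ := hσ j
          rw [swp_inr, if_pos hj] at hi
          exact ⟨i, hi⟩
        · rintro ⟨i, hi⟩
          by_contra hj
          have := hb (fun p => z (swp σ (Sum.inl p))) (j, i)
          rw [swp_inl σ (j, i), if_neg hj] at this
          exact this hi
      intro σ hσ τ hτ hστ
      have hσ' := (Finset.mem_filter.1 (Finset.mem_coe.1 hσ)).2
      have hτ' := (Finset.mem_filter.1 (Finset.mem_coe.1 hτ)).2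
      funext j
      rw [Bool.eq_iff_iff, key σ hσ' j, key τ hτ' j]
      dsimp only at hστ
      rw [hστ]
    have e3 := h2 z
    have e4 : 2 * (Finset.univ.filter fun σ : Fin r → Bool =>
        ∀ j, ∃ i, R (z (swp σ (Sum.inr (j, i)))) (b fun p => z (swp σ (Sum.inl p)))).card + 1 ≤
        2 ^ r := by omega
    rw [e1]
    have e5 : ((2 * (Finset.univ.filter fun σ : Fin r → Bool =>
        ∀ j, ∃ i, R (z (swp σ (Sum.inr (j, i)))) (b fun p => z (swp σ (Sum.inl p)))).card + 1 :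
        ℕ) : ℝ) ≤ ((2 ^ r : ℕ) : ℝ) := by exact_mod_cast e4
    push_cast at e5
    linarith
  have h5 : EE w (fun z => ∑ σ : Fin r → Bool, E (z ∘ swp σ)) ≤ ((2 : ℝ) ^ r - 1) / 2 := by
    rw [← EE_const (κ := (Fin r × Fin t) ⊕ (Fin r × Fin t)) hw1 (((2 : ℝ) ^ r - 1) / 2)]
    refine EE_mono hw fun z => ?_
    have := hbound z
    linarith
  rw [← hsym] at h5
  have h6 : (0 : ℝ) < 2 ^ r := by positivity
  have h7 : (2 : ℝ) ^ r * (1 / 2) ≤ 2 ^ r * EE w E := mul_le_mul_of_nonneg_left hE h6.le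
  linarith

end Pool.Agent.NIPFields.PQ
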