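import Mathlib
import Pool.Agent.NIPFields.PQ.Weights

set_option autoImplicit false

/-!
# The fractional Helly property of relations of small shatter function
-/

namespace Pool.Agent.NIPFields.PQ

open Finset

section

variable {X B : Type*} [Nonempty X] (R : X → B → Prop) {κ : Type*} [DecidableEq κ]

open Classical in
/-- A point related to the values on `I`. -/
noncomputable def pt (I : Finset κ) (v : I → B) : X :=
  if h : ∃ x, ∀ i, R x (v i) then h.choose else Classical.arbitrary X

theorem pt_spec {I : Finset κ} {u : κ → B} (h : ∃ x, ∀ i ∈ I, R x (u i)) :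
    ∀ i ∈ I, R (pt R I fun i => u i) (u i) := by
  have h' : ∃ x, ∀ i : I, R x (u i) := by
    obtain ⟨x, hx⟩ := h
    exact ⟨x, fun i => hx i i.2⟩
  intro i hi
  have h1 : pt R I (fun i => u i) = h'.choose := dif_pos h'
  rw [h1]
  exact h'.choose_spec ⟨i, hi⟩

theorem pt_update {I : Finset κ} {u : κ → B} {j : κ} (hj : j ∉ I) (c : B) :
    pt R I (fun i => Function.update u j c i) = pt R I (fun i => u i) := by
  congr 1
  funext i
  rw [Function.update_of_ne]
  rintro rfl
  exact hj i.2

theorem good_update {I : Finset κ} {u : κ → B} {j : κ} (hj : j ∉ I) (c : B) :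
    (∃ x, ∀ i ∈ I, R x (Function.update u j c i)) ↔ ∃ x, ∀ i ∈ I, R x (u i) := by
  refine exists_congr fun x => forall₂_congr fun i hi => ?_
  rw [Function.update_of_ne]
  rintro rfl
  exact hj hi

end

open Classical in
/-- The first moment argument. -/
theorem frac_helly {X B : Type*} [Nonempty X] [Fintype B] (R : X → B → Prop) (k m : ℕ)
    (hm : 0 < m) (c : ℝ)
    (hG : ∀ b : Fin m → B, c ≤ (((powersetCard k univ).filter
      fun I : Finset (Fin m) => ∃ x, ∀ i ∈ I, R x (b i)).card : ℝ))
    (hT : ∀ b : Fin m → B, (((powersetCard k univ).filter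
      fun I : Finset (Fin m) => ∃ x, ∀ i, R x (b i) ↔ i ∈ I).card : ℝ) < c / 2)
    (w : B → ℝ) (hw : ∀ b, 0 ≤ w b) (hw1 : ∑ b, w b = 1) :
    ∃ x, 1 / (2 * m : ℝ) ≤ ∑ b, w b * (if R x b then 1 else 0) := by
  by_contra hcon
  push Not at hcon
  set β : ℝ := 1 / (2 * m : ℝ) with hβ
  have hm' : (0 : ℝ) < m := Nat.cast_pos.2 hm
  let g : Finset (Fin m) → (Fin m → B) → ℝ := fun I u => if ∃ x, ∀ i ∈ I, R x (u i) then 1 else 0
  let r : X → B → ℝ := fun x b => if R x b then 1 else 0
  let a : Finset (Fin m) → (Fin m → B) → ℝ :=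
    fun I u => if ∃ x, ∀ i, R x (u i) ↔ i ∈ I then 1 else 0
  have hg0 : ∀ I u, 0 ≤ g I u := by
    intro I u
    dsimp only [g]
    split_ifs <;> norm_num
  have hr0 : ∀ x b, 0 ≤ r x b := by
    intro x b
    dsimp only [r]
    split_ifs <;> norm_num
  have ha0 : ∀ I u, 0 ≤ a I u := by
    intro I u
    dsimp only [a]
    split_ifs <;> norm_num
  -- pointwise bound
  have h1 : ∀ (I : Finset (Fin m)) (u : Fin m → B),
      g I u - ∑ j ∈ Iᶜ, g I u * r (pt R I fun i => u i) (u j) ≤ a I u := by
    intro I u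
    by_cases hgood : ∃ x, ∀ i ∈ I, R x (u i)
    · have e1 : g I u = 1 := if_pos hgood
      by_cases hj : ∃ j ∈ Iᶜ, R (pt R I fun i => u i) (u j)
      · obtain ⟨j, hj, hjR⟩ := hj
        have e2 : g I u * r (pt R I fun i => u i) (u j) ≤
            ∑ j ∈ Iᶜ, g I u * r (pt R I fun i => u i) (u j) :=
          Finset.single_le_sum (f := fun j => g I u * r (pt R I fun i => u i) (u j))
            (fun i _ => mul_nonneg (hg0 _ _) (hr0 _ _)) hj
        have e3 : r (pt R I fun i => u i) (u j) = 1 := if_pos hjR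
        rw [e3, mul_one] at e2
        linarith [ha0 I u]
      · push Not at hj
        have e2 : a I u = 1 := by
          refine if_pos ⟨pt R I fun i => u i, fun i => ⟨fun hi => ?_, fun hi => ?_⟩⟩
          · by_contra hiI
            exact hj i (Finset.mem_compl.2 hiI) hi
          · exact pt_spec R hgood i hi
        have e3 : 0 ≤ ∑ j ∈ Iᶜ, g I u * r (pt R I fun i => u i) (u j) :=
          Finset.sum_nonneg fun j _ => mul_nonneg (hg0 _ _) (hr0 _ _)
        linarith
    · have e1 : g I u = 0 := if_neg hgood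
      simp only [e1, zero_mul, Finset.sum_const_zero, sub_zero]
      exact ha0 I u
  -- expectation of the error terms
  have h2 : ∀ (I : Finset (Fin m)), ∀ j ∈ Iᶜ,
      EE w (fun u => g I u * r (pt R I fun i => u i) (u j)) ≤ EE w (g I) * β := by
    intro I j hj
    have hj' : j ∉ I := Finset.mem_compl.1 hj
    rw [EE_resample hw1 j, ← EE_mul_const]
    refine EE_mono hw fun u => ?_
    have e1 : ∀ c, g I (Function.update u j c) = g I u := by
      intro c
      dsimp only [g]
      simp only [good_update R hj' c]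
    have e2 : ∀ c, pt R I (fun i => Function.update u j c i) = pt R I (fun i => u i) :=
      fun c => pt_update R hj' c
    have e3 : ∑ c, w c * (g I (Function.update u j c) *
        r (pt R I fun i => Function.update u j c i) (Function.update u j c j)) =
        g I u * ∑ c, w c * r (pt R I fun i => u i) c := by
      rw [Finset.mul_sum]
      refine Finset.sum_congr rfl fun c _ => ?_
      rw [e1, e2, Function.update_self]
      ring
    rw [e3]
    exact mul_le_mul_of_nonneg_left (hcon _).le (hg0 _ _)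
  have h3 : ∀ I : Finset (Fin m), EE w (g I) / 2 ≤ EE w (a I) := by
    intro I
    have e1 := EE_mono hw (h1 I)
    rw [EE_sub, EE_sum] at e1
    have e2 : ∑ j ∈ Iᶜ, EE w (fun u => g I u * r (pt R I fun i => u i) (u j)) ≤
        (Iᶜ.card : ℝ) * (EE w (g I) * β) := by
      rw [← nsmul_eq_mul]
      exact Finset.sum_le_card_nsmul _ _ _ (h2 I)
    have e3 : (Iᶜ.card : ℝ) ≤ m := by
      have : Iᶜ.card ≤ Fintype.card (Fin m) := Finset.card_le_univ _
      rw [Fintype.card_fin] at this
      exact_mod_cast this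
    have e4 : 0 ≤ EE w (g I) := EE_nonneg hw (hg0 I)
    have e5 : (Iᶜ.card : ℝ) * (EE w (g I) * β) ≤ m * (EE w (g I) * β) :=
      mul_le_mul_of_nonneg_right e3 (mul_nonneg e4 (by rw [hβ]; positivity))
    have e6 : (m : ℝ) * (EE w (g I) * β) = EE w (g I) / 2 := by
      rw [hβ]
      field_simp
    linarith
  -- summation
  have h4 : c / 2 ≤ EE w (fun u => ∑ I ∈ powersetCard k univ, a I u) := by
    rw [EE_sum]
    have e1 : ∑ I ∈ powersetCard k (univ : Finset (Fin m)), EE w (g I) / 2 ≤
        ∑ I ∈ powersetCard k univ, EE w (a I) := Finset.sum_le_sum fun I _ => h3 I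
    have e2 : c ≤ ∑ I ∈ powersetCard k (univ : Finset (Fin m)), EE w (g I) := by
      rw [← EE_sum, ← EE_const (κ := Fin m) hw1 c]
      refine EE_mono hw fun u => (hG u).trans (le_of_eq ?_)
      dsimp only [g]
      rw [Finset.sum_boole]
    rw [← Finset.sum_div] at e1
    linarith
  obtain ⟨u, hu⟩ := exists_ge_EE hw hw1 (fun u : Fin m → B => ∑ I ∈ powersetCard k univ, a I u)
  have h5 : ∑ I ∈ powersetCard k univ, a I u = (((powersetCard k univ).filter
      fun I : Finset (Fin m) => ∃ x, ∀ i, R x (u i) ↔ i ∈ I).card : ℝ) := by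
    dsimp only [a]
    rw [Finset.sum_boole]
  have h6 := hT u
  rw [← h5] at h6
  linarith

end Pool.Agent.NIPFields.PQ
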