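import Mathlib
import Pool.Agent.NIPFields.PQ.FracHelly
import Pool.Agent.NIPFields.PQ.EpsNet

set_option autoImplicit false

/-!
# Duality and bounded transversals
-/

namespace Pool.Agent.NIPFields.PQ

open Finset

/-- Duality (a finite minimax statement). -/
theorem minimax {V ι : Type*} [Fintype V] [Fintype ι] (u : ι → V → ℝ) (M : ℝ)
    (h : ∀ y : V → ℝ, (∀ v, 0 ≤ y v) → ∃ i, M * ∑ v, y v ≤ ∑ v, y v * u i v) :
    ∃ w : ι → ℝ, (∀ i, 0 ≤ w i) ∧ ∑ i, w i = 1 ∧ ∀ v, M ≤ ∑ i, w i * u i v := by
  classical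
  by_contra hcon
  push Not at hcon
  let T : (ι → ℝ) →ₗ[ℝ] (V → ℝ) :=
    { toFun := fun w v => ∑ i, w i * u i v
      map_add' := by
        intro a b
        funext v
        simp only [Pi.add_apply, add_mul, sum_add_distrib]
      map_smul' := by
        intro a b
        funext v
        simp only [Pi.smul_apply, smul_eq_mul, RingHom.id_apply, mul_sum, mul_assoc] }
  have hTc : Continuous T := LinearMap.continuous_of_finiteDimensional T
  set A : Set (V → ℝ) := T '' stdSimplex ℝ ι with hA
  have hAc : IsCompact A := (isCompact_stdSimplex ℝ ι).image hTc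
  have hAconv : Convex ℝ A := (convex_stdSimplex ℝ ι).linear_image T
  set B : Set (V → ℝ) := {z | ∀ v, M ≤ z v} with hB
  have hBc : IsClosed B := by
    have : B = ⋂ v, {z : V → ℝ | M ≤ z v} := by
      ext z
      simp [hB]
    rw [this]
    exact isClosed_iInter fun v => isClosed_le continuous_const (continuous_apply v)
  have hBconv : Convex ℝ B := by
    intro a ha b hb s t hs ht hst v
    have h1 := ha v
    have h2 := hb v
    simp only [Pi.add_apply, Pi.smul_apply, smul_eq_mul]
    calc M = s * M + t * M := by rw [← add_mul, hst, one_mul]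
      _ ≤ s * a v + t * b v := add_le_add (mul_le_mul_of_nonneg_left h1 hs)
          (mul_le_mul_of_nonneg_left h2 ht)
  have hdisj : Disjoint A B := by
    rw [Set.disjoint_left]
    rintro z ⟨w, hw, rfl⟩ hz
    obtain ⟨v, hv⟩ := hcon w hw.1 hw.2
    exact absurd (hz v) (not_le.2 hv)
  obtain ⟨f, s, t, hfA, hst, hfB⟩ := geometric_hahn_banach_compact_closed hAconv hAc hBconv hBc
    hdisj
  -- coefficients
  set y : V → ℝ := fun v => f (Pi.single v 1) with hy
  have hf : ∀ z : V → ℝ, f z = ∑ v, y v * z v := by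
    intro z
    have h1 : z = ∑ v, z v • (Pi.single v (1 : ℝ) : V → ℝ) := by
      funext a
      rw [Finset.sum_apply]
      simp [Pi.single_apply]
    conv_lhs => rw [h1]
    rw [map_sum]
    refine sum_congr rfl fun v _ => ?_
    rw [map_smul, smul_eq_mul, mul_comm]
  have hy0 : ∀ v, 0 ≤ y v := by
    intro v
    by_contra hneg
    push Not at hneg
    -- move far in the direction of `v`
    have h1 : ∀ r : ℝ, 0 ≤ r → t < ∑ a, y a * M + y v * r := by
      intro r hr
      have h2 := hfB (fun a => M + if a = v then r else 0) (by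
        intro a
        dsimp only
        split_ifs <;> linarith)
      rw [hf] at h2
      have h3 : ∑ a, y a * (M + if a = v then r else 0) = ∑ a, y a * M + y v * r := by
        simp only [mul_add, sum_add_distrib]
        congr 1
        rw [sum_eq_single v]
        · simp
        · intro b _ hb
          simp [hb]
        · intro hv
          exact absurd (mem_univ v) hv
      rw [h3] at h2
      exact h2
    have h4 := h1 (|∑ a, y a * M - t| / (-(y v))) (div_nonneg (abs_nonneg _) (by linarith))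
    have hne : y v ≠ 0 := hneg.ne
    have h5 : y v * (|∑ a, y a * M - t| / (-(y v))) = -|∑ a, y a * M - t| := by
      generalize |∑ a, y a * M - t| = X
      field_simp
    rw [h5] at h4
    have h6 := le_abs_self (∑ a, y a * M - t)
    linarith
  obtain ⟨i, hi⟩ := h y hy0
  have h1 : f (T (Pi.single i 1)) < s := by
    apply hfA
    exact ⟨Pi.single i 1, single_mem_stdSimplex ℝ i, rfl⟩
  have h2 : T (Pi.single i 1) = u i := by
    funext v
    change ∑ j, (Pi.single i (1 : ℝ) : ι → ℝ) j * u j v = u i v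
    rw [sum_eq_single i]
    · simp
    · intro b _ hb
      simp [hb]
    · intro hv
      exact absurd (mem_univ i) hv
  rw [h2, hf] at h1
  have h3 := hfB (fun _ => M) (fun v => le_refl M)
  rw [hf, ← sum_mul, mul_comm] at h3
  linarith

open Classical in
/-- If every probability weight on `B` has a heavy point, there are weights on the points for
which every element of `B` is heavy. -/
theorem exists_weights {X B : Type*} [Nonempty X] [Fintype B] (R : X → B → Prop) {β : ℝ}
    (h : ∀ w : B → ℝ, (∀ b, 0 ≤ w b) → ∑ b, w b = 1 →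
      ∃ x, β ≤ ∑ b, w b * (if R x b then 1 else 0)) :
    ∃ (q : Finset B → X) (μ : Finset B → ℝ), (∀ S, 0 ≤ μ S) ∧ ∑ S, μ S = 1 ∧
      ∀ b, β ≤ ∑ S, μ S * (if R (q S) b then 1 else 0) := by
  let q : Finset B → X := fun S =>
    if h : ∃ x, ∀ b, R x b ↔ b ∈ S then h.choose else Classical.arbitrary X
  have hq : ∀ x b, R (q (Finset.univ.filter fun b => R x b)) b ↔ R x b := by
    intro x b
    have h1 : ∃ x', ∀ b, R x' b ↔ b ∈ (Finset.univ.filter fun b => R x b) :=
      ⟨x, fun b => by simp⟩
    have h2 : q (Finset.univ.filter fun b => R x b) = h1.choose := dif_pos h1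
    rw [h2, h1.choose_spec b]
    simp
  obtain ⟨μ, h1, h2, h3⟩ := minimax (V := B) (ι := Finset B)
    (fun S b => if R (q S) b then (1 : ℝ) else 0) β (by
      intro y hy
      rcases eq_or_lt_of_le (Finset.sum_nonneg fun b (_ : b ∈ (Finset.univ : Finset B)) => hy b)
        with h0 | h0
      · refine ⟨∅, ?_⟩
        rw [← h0, mul_zero]
        refine Finset.sum_nonneg fun b _ => mul_nonneg (hy b) ?_
        split_ifs <;> norm_num
      · obtain ⟨x, hx⟩ := h (fun b => y b / ∑ b, y b) (fun b => div_nonneg (hy b) h0.le) (by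
          rw [← Finset.sum_div, div_self h0.ne'])
        refine ⟨Finset.univ.filter fun b => R x b, ?_⟩
        have e1 : ∑ b, y b / (∑ b, y b) * (if R x b then (1 : ℝ) else 0) =
            (∑ b, y b * (if R x b then (1 : ℝ) else 0)) / ∑ b, y b := by
          rw [Finset.sum_div]
          refine Finset.sum_congr rfl fun b _ => ?_
          ring
        rw [e1, le_div_iff₀ h0] at hx
        refine hx.trans (le_of_eq (Finset.sum_congr rfl fun b _ => ?_))
        rw [if_congr (hq x b) rfl rfl])
  exact ⟨q, μ, h1, h2, h3⟩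

open Classical in
/-- Bounded transversals for all finite families. -/
theorem transversal {X B : Type*} [Nonempty X] (R : X → B → Prop) (k m : ℕ)
    (hm : 0 < m) (c : ℝ)
    (hG : ∀ b : Fin m → B, c ≤ (((powersetCard k univ).filter
      fun I : Finset (Fin m) => ∃ x, ∀ i ∈ I, R x (b i)).card : ℝ))
    (hT : ∀ b : Fin m → B, (((powersetCard k univ).filter
      fun I : Finset (Fin m) => ∃ x, ∀ i, R x (b i) ↔ i ∈ I).card : ℝ) < c / 2)
    (r t : ℕ) (h1 : r * (1 - 1 / (2 * m : ℝ)) ^ t ≤ 1 / 2)
    (h2 : ∀ z : (Fin r × Fin t) ⊕ (Fin r × Fin t) → X,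
      2 * {J : Set ((Fin r × Fin t) ⊕ (Fin r × Fin t)) | ∃ b, J = {i | R (z i) b}}.ncard < 2 ^ r)
    (B0 : Finset B) :
    ∃ z : Fin r × Fin t → X, ∀ b ∈ B0, ∃ i, R (z i) b := by
  have h3 : ∀ w : B0 → ℝ, (∀ b, 0 ≤ w b) → ∑ b, w b = 1 →
      ∃ x, 1 / (2 * m : ℝ) ≤ ∑ b, w b * (if R x b then 1 else 0) := by
    intro w hw hw1
    obtain ⟨x, hx⟩ := frac_helly (fun (x : X) (b : B0) => R x b) k m hm c (fun b => hG fun i => b i)
      (fun b => hT fun i => b i) w hw hw1
    exact ⟨x, hx⟩
  obtain ⟨q, μ, h4, h5, h6⟩ := exists_weights (fun (x : X) (b : B0) => R x b) h3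
  obtain ⟨z, hz⟩ := eps_net (fun (S : Finset B0) (b : B0) => R (q S) b) h4 h5 h6 r t h1 (by
    intro z
    refine lt_of_le_of_lt ?_ (h2 fun i => q (z i))
    refine Nat.mul_le_mul_left 2 (Set.ncard_le_ncard ?_ (Set.toFinite _))
    rintro J ⟨b, rfl⟩
    exact ⟨b, rfl⟩)
  exact ⟨fun i => q (z i), fun b hb => hz ⟨b, hb⟩⟩

end Pool.Agent.NIPFields.PQ
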