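import Mathlib
import Pool.Agent.NIPFields.PQ.Transversal

set_option autoImplicit false

/-!
# Transversals from the `(p, k)` property and a small shatter function
-/

namespace Pool.Agent.NIPFields.PQ

open Finset Filter

theorem choose_ratio {m p : ℕ} (hp : 0 < p) (hm : 2 * p ≤ m) (i : ℕ) (hi : i ≤ p) :
    ((m : ℝ) / (2 * p)) ^ i * (m.choose (p - i) : ℝ) ≤ (m.choose p : ℝ) := by
  induction i with
  | zero => simp
  | succ i ih =>
    refine le_trans ?_ (ih (by omega))
    obtain ⟨j, hj⟩ : ∃ j, p - i = j + 1 := ⟨p - (i + 1), by omega⟩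
    have e1 : p - (i + 1) = j := by omega
    rw [hj, e1, pow_succ, mul_assoc]
    refine mul_le_mul_of_nonneg_left ?_ (by positivity)
    have h1 : (m.choose (j + 1) : ℝ) * (j + 1 : ℕ) = m.choose j * (m - j : ℕ) := by
      exact_mod_cast Nat.choose_succ_right_eq m j
    have h2 : (0 : ℝ) < (j + 1 : ℕ) := by positivity
    have h3 : (m.choose (j + 1) : ℝ) = m.choose j * (m - j : ℕ) / (j + 1 : ℕ) := by
      rw [eq_div_iff h2.ne', h1]
    rw [h3, div_mul_eq_mul_div, div_le_div_iff₀ (by positivity) h2]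
    have h4 : m * (j + 1) ≤ (m - j) * (2 * p) := by
      obtain ⟨c, rfl⟩ := Nat.exists_eq_add_of_le hm
      obtain ⟨d, hd⟩ : ∃ d, p = j + 1 + d := ⟨p - (j + 1), by omega⟩
      subst hd
      have : 2 * (j + 1 + d) + c - j = j + 2 + 2 * d + c := by omega
      rw [this]
      nlinarith
    have h5 : ((m * (j + 1) : ℕ) : ℝ) ≤ (((m - j) * (2 * p) : ℕ) : ℝ) := by exact_mod_cast h4
    have h6 : (m : ℝ) * (m.choose j) * (j + 1 : ℕ) = m.choose j * ((m * (j + 1) : ℕ) : ℝ) := by
      push_cast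
      ring
    have h7 : (m.choose j : ℝ) * (m - j : ℕ) * (2 * p) =
        m.choose j * (((m - j) * (2 * p) : ℕ) : ℝ) := by
      rw [Nat.cast_mul]
      push_cast
      ring
    rw [h6, h7]
    exact mul_le_mul_of_nonneg_left h5 (by positivity)

/-- Many good `k`-sets. -/
theorem card_good {ι : Type*} [Fintype ι] [DecidableEq ι] {k p : ℕ}
    (G : Finset ι → Prop) [DecidablePred G]
    (hp : ∀ P : Finset ι, P.card = p → ∃ I ⊆ P, I.card = k ∧ G I) :
    (Fintype.card ι).choose p ≤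
      ((powersetCard k univ).filter G).card * (Fintype.card ι).choose (p - k) := by
  classical
  choose! I hI1 hI2 hI3 using hp
  have h1 : (powersetCard p (univ : Finset ι)).card = (Fintype.card ι).choose p := by
    rw [card_powersetCard, card_univ]
  have h2 : (powersetCard (p - k) (univ : Finset ι)).card = (Fintype.card ι).choose (p - k) := by
    rw [card_powersetCard, card_univ]
  rw [← h1, ← h2, ← card_product]
  refine card_le_card_of_injOn (fun P => (I P, P \ I P)) ?_ ?_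
  · intro P hP
    have hP' := (mem_powersetCard.1 (mem_coe.1 hP)).2
    rw [mem_coe, mem_product, mem_filter, mem_powersetCard, mem_powersetCard]
    refine ⟨⟨⟨subset_univ _, hI2 P hP'⟩, hI3 P hP'⟩, subset_univ _, ?_⟩
    rw [card_sdiff_of_subset (hI1 P hP'), hP', hI2 P hP']
  · intro P hP Q hQ h
    have hP' := (mem_powersetCard.1 (mem_coe.1 hP)).2
    have hQ' := (mem_powersetCard.1 (mem_coe.1 hQ)).2
    have h3 := (Prod.mk.inj h).1
    have h4 := (Prod.mk.inj h).2
    rw [← union_sdiff_of_subset (hI1 P hP'), ← union_sdiff_of_subset (hI1 Q hQ'), h4, h3]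

/-- The traces do not depend on the index type. -/
theorem ncard_traces {X B ι : Type*} [Fintype ι] (R : X → B → Prop) (z : ι → X) {M : ℕ}
    (hM : Fintype.card ι = M) {c : ℕ}
    (h : ∀ z : Fin M → X, {J : Finset (Fin M) | ∃ b, ∀ j, R (z j) b ↔ j ∈ J}.ncard ≤ c) :
    {J : Set ι | ∃ b, J = {i | R (z i) b}}.ncard ≤ c := by
  classical
  subst hM
  let e := Fintype.equivFin ι
  refine le_trans ?_ (h fun j => z (e.symm j))
  refine Set.ncard_le_ncard_of_injOn (fun J => univ.filter fun j => e.symm j ∈ J) ?_ ?_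
    (Set.toFinite _)
  · rintro J ⟨b, rfl⟩
    exact ⟨b, fun j => by simp⟩
  · intro J _ J' _ hJ
    ext i
    have h1 : e i ∈ (univ.filter fun j => e.symm j ∈ J) ↔
        e i ∈ (univ.filter fun j => e.symm j ∈ J') := by
      rw [show (univ.filter fun j => e.symm j ∈ J) = (univ.filter fun j => e.symm j ∈ J') from hJ]
    simpa using h1

/-- Bounded transversals for all finite families. -/
theorem exists_bound {X B : Type*} [Nonempty X] (R : X → B → Prop) (k p : ℕ) (hk : 0 < k)
    (hkp : k ≤ p) (f : ℕ → ℕ)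
    (hf : Tendsto (fun m : ℕ => (f m : ℝ) / (m : ℝ) ^ k) atTop (nhds 0))
    (htr : ∀ (m : ℕ) (b : Fin m → B),
      {J : Finset (Fin m) | ∃ x, ∀ j, R x (b j) ↔ j ∈ J}.ncard ≤ f m)
    (hdu : ∀ (m : ℕ) (z : Fin m → X),
      {J : Finset (Fin m) | ∃ b, ∀ j, R (z j) b ↔ j ∈ J}.ncard ≤ f m)
    (hp : ∀ b : Fin p → B, ∃ I : Finset (Fin p), I.card = k ∧ ∃ x, ∀ i ∈ I, R x (b i)) :
    ∃ N : ℕ, ∀ B0 : Finset B, ∃ z : Fin N → X, ∀ b ∈ B0, ∃ i, R (z i) b := by
  classical
  have hp0 : 0 < p := by omega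
  have hp0' : (0 : ℝ) < 2 * p := by positivity
  -- the number `m`
  obtain ⟨m, hm1, hm2⟩ : ∃ m : ℕ, 2 * p ≤ m ∧ (f m : ℝ) < ((m : ℝ) / (2 * p)) ^ k / 2 := by
    have h1 : ∀ᶠ m : ℕ in atTop, (f m : ℝ) / (m : ℝ) ^ k < 1 / (2 * (2 * p) ^ k) :=
      hf.eventually_lt_const (by positivity)
    obtain ⟨m, h2, h3⟩ := (h1.and (eventually_ge_atTop (2 * p))).exists
    refine ⟨m, h3, ?_⟩
    have hm0 : (0 : ℝ) < m := by
      have : 0 < m := by omega
      exact_mod_cast this
    rw [div_lt_iff₀ (by positivity)] at h2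
    refine h2.trans_le (le_of_eq ?_)
    rw [div_pow]
    field_simp
  have hm0 : 0 < m := by omega
  have hmR : (0 : ℝ) < m := by exact_mod_cast hm0
  -- the numbers `r = t`
  set β : ℝ := 1 / (2 * m : ℝ) with hβ
  have hβ0 : 0 < β := by positivity
  have hβ1 : β < 1 := by
    rw [hβ, div_lt_one (by positivity)]
    have : (1 : ℝ) ≤ m := by exact_mod_cast hm0
    linarith
  obtain ⟨r, hr1, hr2⟩ : ∃ r : ℕ, (r : ℝ) * (1 - β) ^ r ≤ 1 / 2 ∧
      2 * f (2 * r * r) < 2 ^ r := by
    have h1 : ∀ᶠ r : ℕ in atTop, (r : ℝ) * (1 - β) ^ r < 1 / 2 :=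
      (tendsto_self_mul_const_pow_of_lt_one (by linarith) (by linarith)).eventually_lt_const
        (by norm_num)
    have h2 : ∀ᶠ M : ℕ in atTop, (f M : ℝ) / (M : ℝ) ^ k < 1 := hf.eventually_lt_const one_pos
    have h3 : Tendsto (fun r : ℕ => 2 * r * r) atTop atTop := by
      refine tendsto_atTop_mono (fun r => ?_) tendsto_id
      show r ≤ 2 * r * r
      rcases Nat.eq_zero_or_pos r with rfl | h
      · exact Nat.zero_le _
      · exact Nat.le_mul_of_pos_left r (by omega)
    have h4 := h3.eventually h2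
    have h5 : ∀ᶠ r : ℕ in atTop, (r : ℝ) ^ (2 * k) / 2 ^ r < 1 / 2 ^ (k + 1) :=
      (tendsto_pow_const_div_const_pow_of_one_lt (2 * k) (by norm_num : (1 : ℝ) < 2)).eventually_lt_const
        (by positivity)
    obtain ⟨r, ⟨⟨h6, h7⟩, h8⟩, h9⟩ := (((h1.and h4).and h5).and (eventually_gt_atTop 0)).exists
    refine ⟨r, h6.le, ?_⟩
    have hr0 : (0 : ℝ) < r := by exact_mod_cast h9
    have e1 : (0 : ℝ) < (((2 * r * r : ℕ) : ℝ)) ^ k := by
      push_cast
      positivity
    rw [div_lt_iff₀ e1, one_mul] at h7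
    rw [div_lt_div_iff₀ (by positivity) (by positivity), one_mul] at h8
    have e2 : (((2 * r * r : ℕ) : ℝ)) ^ k = 2 ^ k * (r : ℝ) ^ (2 * k) := by
      push_cast
      rw [mul_assoc, mul_pow, ← sq, ← pow_mul]
    rw [e2] at h7
    have e3 : (2 : ℝ) * f (2 * r * r) < 2 ^ r := by
      calc (2 : ℝ) * f (2 * r * r) < 2 * (2 ^ k * (r : ℝ) ^ (2 * k)) := by linarith
        _ = (r : ℝ) ^ (2 * k) * 2 ^ (k + 1) := by ring
        _ < 2 ^ r := h8
    exact_mod_cast e3
  refine ⟨Fintype.card (Fin r × Fin r), fun B0 => ?_⟩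
  obtain ⟨z, hz⟩ := transversal R k m hm0 (((m : ℝ) / (2 * p)) ^ k) (by
      intro b
      have h1 := card_good (ι := Fin m) (fun I => ∃ x, ∀ i ∈ I, R x (b i)) (by
        intro P hP
        obtain ⟨I, hI, x, hx⟩ := hp fun i => b (P.orderEmbOfFin hP i)
        refine ⟨I.map (P.orderEmbOfFin hP).toEmbedding, ?_, ?_, x, ?_⟩
        · intro i hi
          rw [Finset.mem_map] at hi
          obtain ⟨j, -, rfl⟩ := hi
          exact P.orderEmbOfFin_mem hP j
        · rw [card_map, hI]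
        · intro i hi
          rw [Finset.mem_map] at hi
          obtain ⟨j, hj, rfl⟩ := hi
          exact hx j hj)
      rw [Fintype.card_fin] at h1
      have h2 := choose_ratio hp0 hm1 k hkp
      have h3 : (0 : ℝ) < (m.choose (p - k) : ℝ) := by
        have : 0 < m.choose (p - k) := Nat.choose_pos (by omega)
        exact_mod_cast this
      have h4 : ((m.choose p : ℕ) : ℝ) ≤ ((((powersetCard k univ).filter
        fun I : Finset (Fin m) => ∃ x, ∀ i ∈ I, R x (b i)).card * m.choose (p - k) : ℕ) : ℝ) := by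
        exact_mod_cast h1
      rw [Nat.cast_mul] at h4
      exact le_of_mul_le_mul_right (h2.trans h4) h3) (by
      intro b
      refine lt_of_le_of_lt ?_ hm2
      refine le_trans ?_ (Nat.cast_le.2 (htr m b))
      rw [← Set.ncard_coe_finset, Nat.cast_le]
      refine Set.ncard_le_ncard ?_ (Set.toFinite _)
      intro I hI
      exact (mem_filter.1 (mem_coe.1 hI)).2) r r hr1 (by
      intro z
      refine lt_of_le_of_lt (Nat.mul_le_mul_left 2 (ncard_traces R z ?_ (hdu (2 * r * r)))) hr2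
      simp
      ring) B0
  refine ⟨fun i => z ((Fintype.equivFin _).symm i), fun b hb => ?_⟩
  obtain ⟨i, hi⟩ := hz b hb
  refine ⟨Fintype.equivFin _ i, ?_⟩
  show R (z ((Fintype.equivFin _).symm (Fintype.equivFin _ i))) b
  rwa [Equiv.symm_apply_apply]

end Pool.Agent.NIPFields.PQ
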