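import Mathlib
import Pool.Agent.NIPFields.PQ.Bound

set_option autoImplicit false

/-!
# Bounded transversals and affine copies
-/

namespace Pool.Agent.NIPFields.PQ

open Finset Polynomial

theorem exists_weights_sum_ne {F : Type*} [Field F] [Infinite F] (ι : Type*) [Fintype ι] :
    ∃ l : ι → F, ∀ S : Finset ι, S.Nonempty → ∑ i ∈ S, l i ≠ 0 := by
  classical
  let e := Fintype.equivFin ι
  let P : Finset ι → F[X] := fun S => ∑ i ∈ S, X ^ (e i : ℕ)
  have hP : ∀ S : Finset ι, S.Nonempty → P S ≠ 0 := by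
    rintro S ⟨i, hi⟩ h
    have h1 : (P S).coeff (e i : ℕ) = 1 := by
      simp only [P, finsetSum_coeff, coeff_X_pow]
      rw [Finset.sum_eq_single i]
      · simp
      · intro j _ hj
        rw [if_neg]
        intro h2
        exact hj (e.injective (Fin.ext h2)).symm
      · intro h2
        exact absurd hi h2
    rw [h, coeff_zero] at h1
    exact zero_ne_one h1
  let Q : F[X] := ∏ S ∈ (univ : Finset (Finset ι)).filter (fun S => S.Nonempty), P S
  have hQ : Q ≠ 0 := by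
    refine Finset.prod_ne_zero_iff.2 fun S hS => hP S (mem_filter.1 hS).2
  obtain ⟨x, hx⟩ := Infinite.exists_notMem_finset Q.roots.toFinset
  have hx' : Q.eval x ≠ 0 := by
    intro h
    exact hx (Multiset.mem_toFinset.2 ((mem_roots hQ).2 h))
  refine ⟨fun i => x ^ (e i : ℕ), fun S hS h => hx' ?_⟩
  rw [eval_prod]
  refine Finset.prod_eq_zero (mem_filter.2 ⟨mem_univ S, hS⟩) ?_
  simp only [P, eval_finsetSum, eval_pow, eval_X]
  exact h

/-- A finite set such that every cover by `N` sets has a piece with an affine copy of `A`. -/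
theorem exists_affine_copy {F : Type*} [Field F] [Infinite F] (A : Finset F) (N : ℕ) :
    ∃ B0 : Finset F, ∀ S : Fin N → Set F, (∀ b ∈ B0, ∃ i, b ∈ S i) →
      ∃ i u v, v ≠ 0 ∧ ∀ a ∈ A, u + a * v ∈ S i := by
  classical
  obtain ⟨ι, hι, hHJ⟩ := Combinatorics.Line.exists_mono_in_high_dimension A (Fin N)
  obtain ⟨l, hl⟩ := exists_weights_sum_ne (F := F) ι
  refine ⟨univ.image fun w : ι → A => ∑ i, (w i : F) * l i, fun S hS => ?_⟩
  have h1 : ∀ w : ι → A, ∃ i, ∑ j, (w j : F) * l j ∈ S i := fun w =>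
    hS _ (mem_image_of_mem _ (mem_univ w))
  choose C hC using h1
  obtain ⟨L, c, hL⟩ := hHJ C
  refine ⟨c, ∑ i ∈ univ.filter (fun i => (L.idxFun i).isSome), ((L.idxFun i).elim 0
      fun a => (a : F)) * l i, ∑ i ∈ univ.filter (fun i => ¬ (L.idxFun i).isSome), l i, ?_, ?_⟩
  · apply hl
    obtain ⟨i, hi⟩ := L.proper
    exact ⟨i, mem_filter.2 ⟨mem_univ i, by simp [hi]⟩⟩
  · intro a ha
    have h2 := hC (L ⟨a, ha⟩)
    rw [hL ⟨a, ha⟩] at h2
    convert h2 using 1
    rw [← Finset.sum_filter_add_sum_filter_not univ (fun i => (L.idxFun i).isSome)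
      fun i => ((L ⟨a, ha⟩ i : A) : F) * l i]
    congr 1
    · refine Finset.sum_congr rfl fun i hi => ?_
      have hi' := (mem_filter.1 hi).2
      rw [Option.isSome_iff_exists] at hi'
      obtain ⟨b, hb⟩ := hi'
      have e1 : L ⟨a, ha⟩ i = b := by
        show (L.idxFun i).getD ⟨a, ha⟩ = b
        rw [hb]
        rfl
      rw [e1, hb]
      rfl
    · rw [Finset.mul_sum]
      refine Finset.sum_congr rfl fun i hi => ?_
      have hi' := (mem_filter.1 hi).2
      rw [Option.not_isSome_iff_eq_none] at hi'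
      have e1 : L ⟨a, ha⟩ i = ⟨a, ha⟩ := by
        show (L.idxFun i).getD ⟨a, ha⟩ = ⟨a, ha⟩
        rw [hi']
        rfl
      rw [e1]

open Filter in
/-- The `(p, k)` property and a shatter function `o(m ^ k)` give common solutions for all finite
sets. -/
theorem exists_common {F : Type*} [Field F] [Infinite F] (H : Set F)
    (h0 : ∀ x ∈ H, x ≠ 0) (hmul : ∀ x ∈ H, ∀ y ∈ H, x * y ∈ H) (hinv : ∀ x ∈ H, x⁻¹ ∈ H)
    (k p : ℕ) (hk : 0 < k) (hkp : k ≤ p)
    (hp : ∀ b : Fin p → F, ∃ I : Finset (Fin p), I.card = k ∧ ∃ x, x ≠ 0 ∧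
      ∀ i ∈ I, 1 + b i * x ∈ H) (f : ℕ → ℕ)
    (hf : Tendsto (fun m : ℕ => (f m : ℝ) / (m : ℝ) ^ k) atTop (nhds 0))
    (htr : ∀ (m : ℕ) (b : Fin m → F),
      {J : Finset (Fin m) | ∃ x, ∀ j, 1 + b j * x ∈ H ↔ j ∈ J}.ncard ≤ f m) (A : Finset F) :
    ∃ d, d ≠ 0 ∧ ∀ a ∈ A, 1 + a * d ∈ H := by
  classical
  have : Nonempty {x : F // x ≠ 0} := ⟨⟨1, one_ne_zero⟩⟩
  obtain ⟨N, hN⟩ := exists_bound (fun (x : {x : F // x ≠ 0}) (b : F) => 1 + b * x ∈ H) k p hk hkp
    f hf (by
      intro m b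
      refine le_trans (Set.ncard_le_ncard ?_ (Set.toFinite _)) (htr m b)
      rintro J ⟨x, hx⟩
      exact ⟨x, hx⟩) (by
      intro m z
      refine le_trans (Set.ncard_le_ncard ?_ (Set.toFinite _)) (htr m fun j => z j)
      rintro J ⟨b, hb⟩
      refine ⟨b, fun j => ?_⟩
      rw [mul_comm]
      exact hb j) (by
      intro b
      obtain ⟨I, hI, x, hx, h⟩ := hp b
      exact ⟨I, hI, ⟨x, hx⟩, h⟩)
  obtain ⟨B0, hB0⟩ := exists_affine_copy (insert 0 A) N
  obtain ⟨z, hz⟩ := hN B0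
  obtain ⟨i, u, v, hv, h⟩ := hB0 (fun i => {b | 1 + b * z i ∈ H}) hz
  have h1 : 1 + u * z i ∈ H := by
    have := h 0 (mem_insert_self 0 A)
    rw [zero_mul, add_zero] at this
    exact this
  have h2 := h0 _ h1
  refine ⟨v * z i / (1 + u * z i), div_ne_zero (mul_ne_zero hv (z i).2) h2, fun a ha => ?_⟩
  have h3 : 1 + (u + a * v) * z i ∈ H := h a (mem_insert_of_mem ha)
  have h4 : 1 + a * (v * z i / (1 + u * z i)) =
      (1 + (u + a * v) * z i) * (1 + u * z i)⁻¹ := by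
    have h5 : v * z i / (1 + u * z i) * (1 + u * z i) = v * z i := div_mul_cancel₀ _ h2
    rw [← div_eq_mul_inv, eq_div_iff h2]
    calc (1 + a * (v * z i / (1 + u * z i))) * (1 + u * z i) =
        (1 + u * z i) + a * (v * z i / (1 + u * z i) * (1 + u * z i)) := by ring
      _ = 1 + (u + a * v) * z i := by
        rw [h5]
        ring
  rw [h4]
  exact hmul _ h3 _ (hinv _ h1)

end Pool.Agent.NIPFields.PQ
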