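import Mathlib
import Pool.Agent.NIPFields.PQ.HJ

set_option autoImplicit false

/-!
# Three squares
-/

namespace Pool.Agent.NIPFields.PQ

open Finset Polynomial

/-- For given distinct `a`, `b` and all `c` outside of a set of at most `11` elements there is a
nonzero `d` such that `1 + a d`, `1 + b d`, `1 + c d` are nonzero squares. -/
theorem three_squares {F : Type*} [Field F] (h2 : (2 : F) ≠ 0) {a b : F} (hab : a ≠ b) :
    ∃ Z : Finset F, Z.card ≤ 11 ∧ ∀ c ∉ Z, ∃ d, d ≠ 0 ∧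
      (∃ x, x ≠ 0 ∧ 1 + a * d = x ^ 2) ∧ (∃ x, x ≠ 0 ∧ 1 + b * d = x ^ 2) ∧
      (∃ x, x ≠ 0 ∧ 1 + c * d = x ^ 2) := by
  classical
  let P1 : F[X] := X ^ 2 + (C (-2 * (a + b)) * X + C ((a - b) ^ 2))
  let P2 : F[X] := X ^ 3 + (C (-(a + b)) * X ^ 2 + C ((a - b) ^ 2 - 2 * (a + b) ^ 2 + 8 * a * b) * X +
    C ((a + b) * (a - b) ^ 2))
  let P3 : F[X] := X ^ 2 + (C (2 * a - 2 * b) * X + C ((a - b) ^ 2 + 4 * a * (b - a)))
  let P4 : F[X] := X ^ 2 + (C (2 * b - 2 * a) * X + C ((a - b) ^ 2 + 4 * b * (a - b)))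
  let P5 : F[X] := C (-3) * X ^ 2 + C (2 * (a + b)) * X + C ((a - b) ^ 2)
  have d1 : P1.natDegree = 2 ∧ P1 ≠ 0 := by
    have h : P1.Monic := by
      apply monic_X_pow_add
      compute_degree!
    refine ⟨?_, h.ne_zero⟩
    simp only [P1]
    compute_degree!
  have d2 : P2.natDegree = 3 ∧ P2 ≠ 0 := by
    have h : P2.Monic := by
      apply monic_X_pow_add
      compute_degree!
    refine ⟨?_, h.ne_zero⟩
    simp only [P2]
    compute_degree!
  have d3 : P3.natDegree = 2 ∧ P3 ≠ 0 := by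
    have h : P3.Monic := by
      apply monic_X_pow_add
      compute_degree!
    refine ⟨?_, h.ne_zero⟩
    simp only [P3]
    compute_degree!
  have d4 : P4.natDegree = 2 ∧ P4 ≠ 0 := by
    have h : P4.Monic := by
      apply monic_X_pow_add
      compute_degree!
    refine ⟨?_, h.ne_zero⟩
    simp only [P4]
    compute_degree!
  have d5 : P5.natDegree ≤ 2 ∧ P5 ≠ 0 := by
    refine ⟨?_, ?_⟩
    · simp only [P5]
      compute_degree!
    · intro h
      have h3 : P5.eval 0 = 0 := by rw [h, eval_zero]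
      simp only [P5, eval_add, eval_mul, eval_C, eval_pow, eval_X] at h3
      have h4 : (a - b) ^ 2 = 0 := by
        rw [← h3]
        ring
      exact hab (sub_eq_zero.1 (pow_eq_zero_iff (two_ne_zero)|>.1 h4))
  refine ⟨P1.roots.toFinset ∪ (P2.roots.toFinset ∪ (P3.roots.toFinset ∪ (P4.roots.toFinset ∪
    P5.roots.toFinset))), ?_, ?_⟩
  · have e : ∀ P : F[X], P.roots.toFinset.card ≤ P.natDegree := fun P =>
      (Multiset.toFinset_card_le _).trans (card_roots' P)
    have := e P1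
    have := e P2
    have := e P3
    have := e P4
    have := e P5
    have u1 := card_union_le P1.roots.toFinset (P2.roots.toFinset ∪ (P3.roots.toFinset ∪
      (P4.roots.toFinset ∪ P5.roots.toFinset)))
    have u2 := card_union_le P2.roots.toFinset (P3.roots.toFinset ∪ (P4.roots.toFinset ∪
      P5.roots.toFinset))
    have u3 := card_union_le P3.roots.toFinset (P4.roots.toFinset ∪ P5.roots.toFinset)
    have u4 := card_union_le P4.roots.toFinset P5.roots.toFinset
    omega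
  · intro c hc
    simp only [mem_union, Multiset.mem_toFinset, not_or] at hc
    obtain ⟨c1, c2, c3, c4, c5⟩ := hc
    rw [mem_roots d1.2, IsRoot.def] at c1
    rw [mem_roots d2.2, IsRoot.def] at c2
    rw [mem_roots d3.2, IsRoot.def] at c3
    rw [mem_roots d4.2, IsRoot.def] at c4
    rw [mem_roots d5.2, IsRoot.def] at c5
    simp only [P1, P2, P3, P4, P5, eval_add, eval_mul, eval_C, eval_pow, eval_X] at c1 c2 c3 c4 c5
    set D : F := a ^ 2 + b ^ 2 + c ^ 2 - 2 * a * b - 2 * b * c - 2 * c * a with hD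
    have h1 : D ≠ 0 := by
      intro h
      apply c1
      rw [← h, hD]
      ring
    have h3 : (a + b + c) * D + 8 * a * b * c ≠ 0 := by
      intro h
      apply c2
      rw [← h, hD]
      ring
    have h4 : D + 4 * a * (b + c - a) ≠ 0 := by
      intro h
      apply c3
      rw [← h, hD]
      ring
    have h5 : D + 4 * b * (a + c - b) ≠ 0 := by
      intro h
      apply c4
      rw [← h, hD]
      ring
    have h6 : D + 4 * c * (a + b - c) ≠ 0 := by
      intro h
      apply c5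
      rw [← h, hD]
      ring
    have h8 : (8 : F) ≠ 0 := by
      have : (8 : F) = 2 ^ 3 := by norm_num
      rw [this]
      exact pow_ne_zero 3 h2
    refine ⟨8 * ((a + b + c) * D + 8 * a * b * c) / D ^ 2,
      div_ne_zero (mul_ne_zero h8 h3) (pow_ne_zero 2 h1),
      ⟨(D + 4 * a * (b + c - a)) / D, div_ne_zero h4 h1, ?_⟩,
      ⟨(D + 4 * b * (a + c - b)) / D, div_ne_zero h5 h1, ?_⟩,
      ⟨(D + 4 * c * (a + b - c)) / D, div_ne_zero h6 h1, ?_⟩⟩
    · rw [div_pow, eq_div_iff (pow_ne_zero 2 h1), add_mul, one_mul, mul_assoc,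
        div_mul_cancel₀ _ (pow_ne_zero 2 h1), hD]
      ring
    · rw [div_pow, eq_div_iff (pow_ne_zero 2 h1), add_mul, one_mul, mul_assoc,
        div_mul_cancel₀ _ (pow_ne_zero 2 h1), hD]
      ring
    · rw [div_pow, eq_div_iff (pow_ne_zero 2 h1), add_mul, one_mul, mul_assoc,
        div_mul_cancel₀ _ (pow_ne_zero 2 h1), hD]
      ring

theorem one_square {F : Type*} [Field F] [Infinite F] (a : F) :
    ∃ d, d ≠ 0 ∧ ∃ x, x ≠ 0 ∧ 1 + a * d = x ^ 2 := by
  classical
  rcases eq_or_ne a 0 with rfl | ha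
  · exact ⟨1, one_ne_zero, 1, one_ne_zero, by ring⟩
  · obtain ⟨s, hs⟩ := Infinite.exists_notMem_finset ({0, 1, -1} : Finset F)
    simp only [mem_insert, mem_singleton, not_or] at hs
    refine ⟨(s ^ 2 - 1) / a, div_ne_zero ?_ ha, s, hs.1, ?_⟩
    · intro h
      have : (s - 1) * (s + 1) = 0 := by
        rw [← h]
        ring
      rcases mul_eq_zero.1 this with h | h
      · exact hs.2.1 (sub_eq_zero.1 h)
      · exact hs.2.2 (eq_neg_of_add_eq_zero_left h)
    · rw [mul_div_cancel₀ _ ha]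
      ring

/-- The `(27, 3)` property of the nonzero squares. -/
theorem pq_squares {F : Type*} [Field F] [Infinite F] (h2 : (2 : F) ≠ 0) (H : Set F)
    (hH : ∀ x : F, x ≠ 0 → x ^ 2 ∈ H) (b : Fin 27 → F) :
    ∃ I : Finset (Fin 27), I.card = 3 ∧ ∃ x, x ≠ 0 ∧ ∀ i ∈ I, 1 + b i * x ∈ H := by
  classical
  by_cases hc : ∃ v, 3 ≤ (univ.filter fun i => b i = v).card
  · obtain ⟨v, hv⟩ := hc
    obtain ⟨I, hI, hI3⟩ := exists_subset_card_eq hv
    obtain ⟨d, hd, x, hx, h⟩ := one_square v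
    refine ⟨I, hI3, d, hd, fun i hi => ?_⟩
    rw [(mem_filter.1 (hI hi)).2, h]
    exact hH x hx
  · push Not at hc
    have h1 : (univ : Finset (Fin 27)).card ≤ 2 * (univ.image b).card :=
      card_le_mul_card_image univ 2 fun v _ => Nat.le_of_lt_succ (hc v)
    rw [card_univ, Fintype.card_fin] at h1
    have h3 : 1 < (univ.image b).card := by omega
    obtain ⟨u, hu, v, hv, huv⟩ := one_lt_card.1 h3
    obtain ⟨Z, hZ, hZ'⟩ := three_squares h2 huv
    obtain ⟨c, hc1, hc2⟩ : ∃ c ∈ univ.image b, c ∉ insert u (insert v Z) := by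
      have h4 := card_insert_le u (insert v Z)
      have h5 := card_insert_le v Z
      exact exists_mem_notMem_of_card_lt_card (by omega)
    simp only [mem_insert, not_or] at hc2
    obtain ⟨hcu, hcv, hcZ⟩ := hc2
    obtain ⟨d, hd, ⟨x, hx, e1⟩, ⟨y, hy, e2⟩, ⟨z, hz, e3⟩⟩ := hZ' c hcZ
    obtain ⟨i, -, rfl⟩ := mem_image.1 hu
    obtain ⟨j, -, rfl⟩ := mem_image.1 hv
    obtain ⟨k, -, rfl⟩ := mem_image.1 hc1
    refine ⟨{i, j, k}, ?_, d, hd, ?_⟩
    · rw [card_eq_three]
      refine ⟨i, j, k, ?_, ?_, ?_, rfl⟩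
      · rintro rfl
        exact huv rfl
      · rintro rfl
        exact hcu rfl
      · rintro rfl
        exact hcv rfl
    · intro w hw
      simp only [mem_insert, mem_singleton] at hw
      rcases hw with rfl | rfl | rfl
      · rw [e1]
        exact hH x hx
      · rw [e2]
        exact hH y hy
      · rw [e3]
        exact hH z hz

open Filter in
/-- Common solutions for squares, if the shatter function is `o(m ^ 3)`. -/
theorem exists_common_squares {F : Type*} [Field F] [Infinite F] (h2 : (2 : F) ≠ 0) (H : Set F)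
    (h0 : ∀ x ∈ H, x ≠ 0) (hmul : ∀ x ∈ H, ∀ y ∈ H, x * y ∈ H) (hinv : ∀ x ∈ H, x⁻¹ ∈ H)
    (hH : ∀ x : F, x ≠ 0 → x ^ 2 ∈ H) (f : ℕ → ℕ)
    (hf : Tendsto (fun m : ℕ => (f m : ℝ) / (m : ℝ) ^ 3) atTop (nhds 0))
    (htr : ∀ (m : ℕ) (b : Fin m → F),
      {J : Finset (Fin m) | ∃ x, ∀ j, 1 + b j * x ∈ H ↔ j ∈ J}.ncard ≤ f m) (A : Finset F) :
    ∃ d, d ≠ 0 ∧ ∀ a ∈ A, 1 + a * d ∈ H :=
  exists_common H h0 hmul hinv 3 27 (by norm_num) (by norm_num) (pq_squares h2 H hH) f hf htr A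

end Pool.Agent.NIPFields.PQ
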