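import Mathlib
import Pool.Agent.NIPFields.PQ.Squares
import Pool.Agent.NIPFields.LV.Down

set_option autoImplicit false

/-!
# The combinatorial statement for squares
-/

namespace Pool.Agent.NIPFields.PQ

open Pool.Agent.NIPFields.LV

universe u

/-- The combinatorial statement: a group between the squares and the multiplicative group whose
translates have shatter function `o(m ^ 3)` contains `1 + a d` for all `a` in a finite set and a
suitable `d ≠ 0`. -/
theorem pqStatement_two : PQStatement.{u} 2 (Small 3) := by
  intro F _ _ h2 H f h0 hmul hinv hpow hf htr A
  exact exists_common_squares (by exact_mod_cast h2) H h0 hmul hinv hpow f hf htr A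

end Pool.Agent.NIPFields.PQ
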