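import Mathlib
import Pool.Agent.NIPFields.PQ.HJ

set_option autoImplicit false

/-!
# Two powers in positive characteristic

Let `q` be a power of the characteristic and `a`, `c` nonzero elements with `a / c` not in the field
with `q` elements. For `x₁ = c / (c - a)`, `x₂ = -a / (c - a)` we have `x₁ + x₂ = 1` and
`a x₁ + c x₂ = 0`, so `x₂ ^ q - x₂ = -(x₁ ^ q - x₁)` and the element `d` with
`1 + a d = x₁ ^ (q - 1)` has `1 + c d = x₂ ^ (q - 1)`.
-/

namespace Pool.Agent.NIPFields.PQ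

open Finset Polynomial

theorem two_powers {F : Type*} [Field F] {p : ℕ} [Fact p.Prime] [CharP F p] {m : ℕ} (hm : 0 < m)
    {a c : F} (ha : a ≠ 0) (hc : c ≠ 0) (hac : (a / c) ^ p ^ m ≠ a / c) :
    ∃ d x₁ x₂ : F, d ≠ 0 ∧ x₁ ≠ 0 ∧ x₂ ≠ 0 ∧ 1 + a * d = x₁ ^ (p ^ m - 1) ∧
      1 + c * d = x₂ ^ (p ^ m - 1) := by
  have hq : 1 < p ^ m := Nat.one_lt_pow hm.ne' (Fact.out : p.Prime).one_lt
  obtain ⟨r, hr⟩ : ∃ r, p ^ m = r + 1 := ⟨p ^ m - 1, by omega⟩
  have hne : c - a ≠ 0 := by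
    intro h
    apply hac
    have : a = c := (sub_eq_zero.1 h).symm
    rw [this, div_self hc, one_pow]
  set x₁ : F := c / (c - a) with hx₁
  set x₂ : F := -a / (c - a) with hx₂
  have h1 : x₁ ≠ 0 := div_ne_zero hc hne
  have h2 : x₂ ≠ 0 := div_ne_zero (neg_ne_zero.2 ha) hne
  have hs : x₁ + x₂ = 1 := by
    rw [hx₁, hx₂]
    field_simp
    ring
  have hs2 : a * x₁ + c * x₂ = 0 := by
    rw [hx₁, hx₂]
    field_simp
    ring
  have hsq : x₁ ^ p ^ m + x₂ ^ p ^ m = 1 := by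
    rw [← add_pow_char_pow, hs, one_pow]
  have hsr : x₁ ^ r * x₁ + x₂ ^ r * x₂ = 1 := by
    rw [← pow_succ, ← pow_succ, ← hr]
    exact hsq
  have hr' : p ^ m - 1 = r := by omega
  refine ⟨(x₁ ^ r - 1) / a, x₁, x₂, ?_, h1, h2, ?_, ?_⟩
  · refine div_ne_zero ?_ ha
    intro h
    apply hac
    have h3 : x₁ ^ p ^ m = x₁ := by
      rw [hr, pow_succ]
      linear_combination x₁ * h
    have h4 : (x₁⁻¹) ^ p ^ m = x₁⁻¹ := by rw [inv_pow, h3]
    have h5 : a / c = 1 - x₁⁻¹ := by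
      rw [hx₁]
      field_simp
      ring
    rw [h5, sub_pow_char_pow, one_pow, h4]
  · rw [hr']
    field_simp
    ring
  · rw [hr']
    apply mul_right_cancel₀ h2
    have h3 : (x₁ ^ r - 1) / a * a = x₁ ^ r - 1 := div_mul_cancel₀ _ ha
    have h4 : c * x₂ = -(a * x₁) := by linear_combination hs2
    calc (1 + c * ((x₁ ^ r - 1) / a)) * x₂ = x₂ + (x₁ ^ r - 1) / a * (c * x₂) := by ring
      _ = x₂ - ((x₁ ^ r - 1) / a * a) * x₁ := by rw [h4]; ring
      _ = x₂ - (x₁ ^ r - 1) * x₁ := by rw [h3]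
      _ = x₂ ^ r * x₂ := by linear_combination -hsr + hs

theorem exists_one {F : Type*} [Field F] [Infinite F] {ℓ : ℕ} (hℓ : 0 < ℓ) (H : Set F)
    (hpow : ∀ x : F, x ≠ 0 → x ^ ℓ ∈ H) (b : F) : ∃ x, x ≠ 0 ∧ 1 + b * x ∈ H := by
  classical
  by_cases hb : b = 0
  · refine ⟨1, one_ne_zero, ?_⟩
    rw [hb, zero_mul, add_zero]
    simpa using hpow 1 one_ne_zero
  · obtain ⟨y, hy⟩ := Infinite.exists_notMem_finset
      (insert (0 : F) (X ^ ℓ - C (1 : F)).roots.toFinset)
    rw [Finset.mem_insert, not_or] at hy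
    have hy1 : y ^ ℓ ≠ 1 := by
      intro h
      apply hy.2
      rw [Multiset.mem_toFinset, mem_roots (X_pow_sub_C_ne_zero hℓ 1), IsRoot.def, eval_sub,
        eval_pow, eval_X, eval_C, h, sub_self]
    refine ⟨(y ^ ℓ - 1) / b, div_ne_zero (sub_ne_zero.2 hy1) hb, ?_⟩
    rw [mul_div_cancel₀ _ hb, add_sub_cancel]
    exact hpow y hy.1

open Filter in
/-- A group between the `ℓ`-th powers and the multiplicative group of an infinite field of
characteristic `p ≠ ℓ` whose translates have shatter function `o(m ^ 2)` contains `1 + a d` for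
all `a` in a finite set and a suitable `d ≠ 0`. -/
theorem exists_common_charP {F : Type*} [Field F] [Infinite F] {p : ℕ} [hp : Fact p.Prime]
    [CharP F p] {ℓ : ℕ} (hℓ : ℓ.Prime) (hℓp : ℓ ≠ p) (H : Set F)
    (h0 : ∀ x ∈ H, x ≠ 0) (hmul : ∀ x ∈ H, ∀ y ∈ H, x * y ∈ H) (hinv : ∀ x ∈ H, x⁻¹ ∈ H)
    (hpow : ∀ x : F, x ≠ 0 → x ^ ℓ ∈ H) (f : ℕ → ℕ)
    (hf : Tendsto (fun m : ℕ => (f m : ℝ) / (m : ℝ) ^ 2) atTop (nhds 0))
    (htr : ∀ (m : ℕ) (b : Fin m → F),
      {J : Finset (Fin m) | ∃ x, ∀ j, 1 + b j * x ∈ H ↔ j ∈ J}.ncard ≤ f m) (A : Finset F) :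
    ∃ d, d ≠ 0 ∧ ∀ a ∈ A, 1 + a * d ∈ H := by
  classical
  set s : ℕ := ℓ - 1 with hs
  have hs0 : 0 < s := by
    have := hℓ.two_le
    omega
  set q : ℕ := p ^ s with hq
  have hq1 : 1 < q := Nat.one_lt_pow hs0.ne' hp.out.one_lt
  have hdvd : ℓ ∣ q - 1 := by
    have hco : Nat.Coprime p ℓ := (Nat.coprime_primes hp.out hℓ).2 (Ne.symm hℓp)
    have h1 : p ^ Nat.totient ℓ ≡ 1 [MOD ℓ] := Nat.ModEq.pow_totient hco
    rw [Nat.totient_prime hℓ] at h1
    exact (Nat.modEq_iff_dvd' hq1.le).1 h1.symm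
  obtain ⟨e, he⟩ := hdvd
  have hpowq : ∀ x : F, x ≠ 0 → x ^ (q - 1) ∈ H := by
    intro x hx
    rw [he, mul_comm, pow_mul]
    exact hpow _ (pow_ne_zero e hx)
  refine exists_common H h0 hmul hinv 2 (q + 1) (by norm_num) (by omega) (fun b => ?_) f hf htr A
  by_cases hinj : Function.Injective b
  · by_cases hz : ∃ i, b i = 0
    · obtain ⟨i, hi⟩ := hz
      obtain ⟨j, hj⟩ : ∃ j : Fin (q + 1), j ≠ i := exists_ne i
      obtain ⟨x, hx, hxH⟩ := exists_one hℓ.pos H hpow (b j)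
      refine ⟨{i, j}, Finset.card_pair hj.symm, x, hx, ?_⟩
      intro t ht
      rcases Finset.mem_insert.1 ht with rfl | ht
      · rw [hi, zero_mul, add_zero]
        simpa using hpow 1 one_ne_zero
      · rw [Finset.mem_singleton.1 ht]
        exact hxH
    · push Not at hz
      obtain ⟨i, hi⟩ : ∃ i, (b i / b 0) ^ q ≠ b i / b 0 := by
        by_contra hcon
        push Not at hcon
        have hP : (X ^ q - X : F[X]) ≠ 0 := FiniteField.X_pow_card_sub_X_ne_zero F hq1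
        have hPd : (X ^ q - X : F[X]).natDegree = q :=
          FiniteField.X_pow_card_sub_X_natDegree_eq F hq1
        have h1 : (univ.image fun i => b i / b 0) ⊆ (X ^ q - X : F[X]).roots.toFinset := by
          intro y hy
          obtain ⟨i, _, rfl⟩ := Finset.mem_image.1 hy
          rw [Multiset.mem_toFinset, mem_roots hP, IsRoot.def, eval_sub, eval_pow, eval_X,
            hcon i, sub_self]
        have h2 := Finset.card_le_card h1
        rw [Finset.card_image_of_injective _ (fun i j hij => hinj ((div_left_inj' (hz 0)).1 hij)),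
          Finset.card_univ, Fintype.card_fin] at h2
        have h3 := (Multiset.toFinset_card_le (X ^ q - X : F[X]).roots).trans
          (card_roots' (X ^ q - X : F[X]))
        rw [hPd] at h3
        omega
      obtain ⟨d, x₁, x₂, hd, hx₁, hx₂, e1, e2⟩ := two_powers (p := p) hs0 (hz i) (hz 0) hi
      have hi0 : i ≠ 0 := by
        rintro rfl
        apply hi
        rw [div_self (hz 0), one_pow]
      refine ⟨{i, 0}, Finset.card_pair hi0, d, hd, ?_⟩
      intro t ht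
      rcases Finset.mem_insert.1 ht with rfl | ht
      · rw [e1]
        exact hpowq x₁ hx₁
      · rw [Finset.mem_singleton.1 ht, e2]
        exact hpowq x₂ hx₂
  · rw [Function.not_injective_iff] at hinj
    obtain ⟨i, j, hij, hne⟩ := hinj
    obtain ⟨x, hx, hxH⟩ := exists_one hℓ.pos H hpow (b i)
    refine ⟨{i, j}, Finset.card_pair hne, x, hx, ?_⟩
    intro t ht
    rcases Finset.mem_insert.1 ht with rfl | ht
    · exact hxH
    · rw [Finset.mem_singleton.1 ht, ← hij]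
      exact hxH

end Pool.Agent.NIPFields.PQ
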