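import Mathlib
import Pool.Agent.NIPFields.PQ.HJ
import Pool.Agent.NIPFields.PQ.Sauer
import Pool.Agent.NIPFields.LG.Germ

set_option autoImplicit false

/-!
# The Ramsey form of `TL`
-/

namespace Pool.Agent.NIPFields.PQ

open Finset Pool.Agent.NIPFields.LV Pool.Agent.NIPFields.LG Pool.Agent.NIPFields.FI

universe u

/-- In an infinite NIP field `TL` follows from its Ramsey form: large sets contain `n` elements with
a common `δ`. -/
theorem tl_of_ramsey {K : Type u} [Field K] [Infinite K] [FirstOrder.Ring.CompatibleRing K]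
    (hK : NIP K) {ℓ : ℕ} (hℓ : 0 < ℓ)
    (h : ∀ n : ℕ, ∃ N : ℕ, ∀ B : Finset K, N ≤ B.card → ∃ C ⊆ B, C.card = n ∧
      ∃ δ : K, δ ≠ 0 ∧ ∀ a ∈ C, ∃ b : K, b ≠ 0 ∧ 1 + a * δ = b ^ ℓ) : TL K ℓ := by
  classical
  obtain ⟨d₀, hd₀⟩ := NIP.vc_lin hK ℓ
  have hvc : ∀ y : Fin (d₀ + 1) → K, ∃ J : Finset (Fin (d₀ + 1)), ∀ x : K,
      ∃ i, ¬ (1 + y i * x ∈ Pw K ℓ ↔ i ∈ J) := by
    intro y
    obtain ⟨J, hJ⟩ := hd₀ fun i => y i.castSucc
    refine ⟨J.image Fin.castSucc, fun x => ?_⟩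
    obtain ⟨i, hi⟩ := hJ x
    refine ⟨i.castSucc, fun h' => hi ?_⟩
    rw [col_pow]
    refine h'.trans ?_
    rw [mem_image]
    constructor
    · rintro ⟨j, hj, hji⟩
      rwa [← Fin.castSucc_injective _ hji]
    · intro hi
      exact ⟨i, hi, rfl⟩
  have htr := trLe_of_vc hvc
  obtain ⟨N, hN⟩ := h (d₀ + 1)
  -- single elements
  have hone : ∀ b : K, ∃ x : K, x ≠ 0 ∧ 1 + b * x ∈ Pw K ℓ := by
    intro b
    by_cases hb : b = 0
    · exact ⟨1, one_ne_zero, by rw [hb, zero_mul, add_zero]; exact Pw_one⟩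
    obtain ⟨y, hy⟩ := Infinite.exists_notMem_finset
      (insert 0 (Polynomial.X ^ ℓ - Polynomial.C 1 : Polynomial K).roots.toFinset)
    rw [mem_insert, not_or, Multiset.mem_toFinset,
      Polynomial.mem_roots (Polynomial.X_pow_sub_C_ne_zero hℓ 1)] at hy
    have hy1 : y ^ ℓ - 1 ≠ 0 := by
      intro h0
      apply hy.2
      simp [Polynomial.IsRoot, h0]
    refine ⟨(y ^ ℓ - 1) / b, div_ne_zero hy1 hb, y, hy.1, ?_⟩
    rw [mul_div_cancel₀ _ hb]
    ring
  intro A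
  refine exists_common (Pw K ℓ) (fun _ hx => Pw_ne hx) (fun _ hx _ hy => Pw_mul hx hy)
    (fun _ hx => Pw_inv hx) (d₀ + 1) ((N + 1) * (d₀ + 1)) (Nat.succ_pos _)
    (Nat.le_mul_of_pos_left _ (Nat.succ_pos _)) ?_ _ (tendsto_binom (d₀ + 1)) htr A
  intro b
  by_cases hcard : N ≤ (univ.image b).card
  · obtain ⟨C, hC, hCn, δ, hδ, hδC⟩ := hN _ hcard
    have hex : ∀ c : C, ∃ i, b i = c := by
      intro c
      obtain ⟨i, _, hi⟩ := mem_image.1 (hC c.2)
      exact ⟨i, hi⟩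
    choose g hg using hex
    have hginj : Function.Injective g := by
      intro c c' hcc
      apply Subtype.ext
      rw [← hg c, ← hg c', hcc]
    refine ⟨(univ : Finset C).image g, ?_, δ, hδ, ?_⟩
    · rw [card_image_of_injective _ hginj, card_univ, Fintype.card_coe, hCn]
    · intro i hi
      obtain ⟨c, _, rfl⟩ := mem_image.1 hi
      rw [hg c]
      exact hδC c c.2
  · push Not at hcard
    have hpos : 0 < (univ.image b).card := by
      rw [card_pos]
      exact ⟨b ⟨0, by positivity⟩, mem_image_of_mem b (mem_univ _)⟩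
    obtain ⟨v, _, hv⟩ := exists_lt_card_fiber_of_mul_lt_card_of_maps_to
      (s := (univ : Finset (Fin ((N + 1) * (d₀ + 1))))) (t := univ.image b) (f := b) (n := d₀)
      (fun i _ => mem_image_of_mem b (mem_univ i)) (by
        rw [card_univ, Fintype.card_fin]
        nlinarith)
    obtain ⟨I, hI, hIc⟩ := exists_subset_card_eq (Nat.succ_le_of_lt hv)
    obtain ⟨x, hx, hxb⟩ := hone v
    refine ⟨I, hIc, x, hx, fun i hi => ?_⟩
    rw [(mem_filter.1 (hI hi)).2]
    exact hxb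

end Pool.Agent.NIPFields.PQ
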